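import Mathlib

namespace Pool.Agent.Results.MP_590456_lc.Disproof

open MeasureTheory NNReal ENNReal

/-- One run against an oblivious adversary.  `A j lab t` is the cost fixed for attempt number `j`
when the labels of the published posts are `lab` and the time step is `t`; `e k` says that the
label of the `k`-th published post is wrong (label `true` = spam).  The schedule lists the
attempts as (time step, made by a bad ID?); a bad ID pays iff the cost is at most `θ`.
Output: (published spam posts + cost paid on legitimate posts, cost paid by bad IDs). -/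
noncomputable def run (A : ℕ → List Bool → ℕ → ℝ≥0) (e : ℕ → Bool) (θ : ℝ≥0) :
    List (ℕ × Bool) → ℕ → List Bool → ℝ≥0 × ℝ≥0
  | [], _, _ => (0, 0)
  | (t, true) :: s, j, lab =>
      if A j lab t ≤ θ then
        (1, A j lab t) + run A e θ s (j + 1) (lab ++ [!(e lab.length)])
      else run A e θ s (j + 1) lab
  | (t, false) :: s, j, lab =>
      (A j lab t, 0) + run A e θ s (j + 1) (lab ++ [e lab.length])

/-- number of posts made by good IDs -/
def goods (s : List (ℕ × Bool)) : ℕ := s.countP (fun a => !a.2)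

theorem run_T (A : ℕ → List Bool → ℕ → ℝ≥0) (e : ℕ → Bool) (θ : ℝ≥0) :
    ∀ (s : List (ℕ × Bool)) (j : ℕ) (lab : List Bool),
      (run A e θ s j lab).2 ≤ θ * s.length := by
  intro s
  induction s with
  | nil => intro j lab; simp [run]
  | cons a s ih =>
    intro j lab
    obtain ⟨t, b⟩ := a
    cases b
    · have := ih (j + 1) (lab ++ [e lab.length])
      simp only [run, Prod.snd_add, zero_add, List.length_cons, Nat.cast_add, Nat.cast_one]
      calc _ ≤ θ * s.length := this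
        _ ≤ _ := by gcongr; exact le_self_add
    · simp only [run, List.length_cons, Nat.cast_add, Nat.cast_one]
      split_ifs with h
      · have := ih (j + 1) (lab ++ [!(e lab.length)])
        simp only [Prod.snd_add, mul_add, mul_one]
        rw [add_comm]
        exact add_le_add this h
      · calc _ ≤ θ * s.length := ih _ _
          _ ≤ _ := by gcongr; exact le_self_add

theorem key {Ω : Type*} [MeasurableSpace Ω] (μ : Measure Ω) [IsProbabilityMeasure μ]
    (A : Ω → ℕ → List Bool → ℕ → ℝ≥0) (e : Ω → ℕ → Bool)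
    (hA : ∀ j lab t, Measurable fun ω => A ω j lab t) (he : ∀ k, Measurable fun ω => e ω k)
    (c : ℝ≥0) : ∀ (ts : List ℕ) (j : ℕ) (lab : Ω → List Bool),
      (∀ l, MeasurableSet {ω | lab ω = l}) →
      ∃ s : List (ℕ × Bool), s.map Prod.fst = ts ∧
        (ts.length : ℝ≥0∞) / 2 + c * goods s ≤
          ∫⁻ ω, ((run (A ω) (e ω) (2 * c + 1) s j (lab ω)).1 : ℝ≥0∞) ∂μ := by
  letI : MeasurableSpace (List Bool) := ⊤
  haveI : MeasurableSingletonClass (List Bool) := ⟨fun _ => trivial⟩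
  intro ts
  induction ts with
  | nil => intro j lab _; exact ⟨[], rfl, by simp [goods]⟩
  | cons t ts ih =>
    intro j lab hlab
    have hl : Measurable lab := measurable_to_countable' hlab
    have hx : Measurable fun ω => A ω j (lab ω) t := by
      have : Measurable fun p : Ω × List Bool => A p.1 j p.2 t :=
        measurable_from_prod_countable_left fun l => hA j l t
      exact this.comp (measurable_id.prodMk hl)
    have hel : Measurable fun ω => e ω (lab ω).length := by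
      have : Measurable fun p : Ω × List Bool => e p.1 p.2.length :=
        measurable_from_prod_countable_left fun l => he l.length
      exact this.comp (measurable_id.prodMk hl)
    have happ : ∀ f : Bool → Bool, Measurable fun ω => lab ω ++ [f (e ω (lab ω).length)] := by
      intro f
      have : Measurable fun p : List Bool × Bool => p.1 ++ [f p.2] := measurable_of_countable _
      exact this.comp (hl.prodMk hel)
    have hS : MeasurableSet {ω | A ω j (lab ω) t ≤ 2 * c + 1} :=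
      measurableSet_le hx measurable_const
    have hlen : (((t :: ts).length : ℕ) : ℝ≥0∞) / 2 = 1 / 2 + (ts.length : ℝ≥0∞) / 2 := by
      rw [List.length_cons, Nat.cast_add, Nat.cast_one, ENNReal.add_div, add_comm]
    by_cases hP : 1 / 2 ≤ μ {ω | A ω j (lab ω) t ≤ 2 * c + 1}
    · classical
      set lab' : Ω → List Bool := fun ω =>
        if A ω j (lab ω) t ≤ 2 * c + 1 then lab ω ++ [!(e ω (lab ω).length)] else lab ω with hlab'
      have hm : Measurable lab' := Measurable.ite hS (happ fun b => !b) hl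
      obtain ⟨s, hs, hb⟩ := ih (j + 1) lab' fun l => hm (measurableSet_singleton l)
      refine ⟨(t, true) :: s, by simp [hs], ?_⟩
      have hg : goods ((t, true) :: s) = goods s := by simp [goods]
      rw [hg, hlen, add_assoc]
      calc _ ≤ ∫⁻ ω, Set.indicator {ω | A ω j (lab ω) t ≤ 2 * c + 1} 1 ω ∂μ +
            ∫⁻ ω, ((run (A ω) (e ω) (2 * c + 1) s (j + 1) (lab' ω)).1 : ℝ≥0∞) ∂μ := by
            rw [lintegral_indicator_one hS]
            exact add_le_add hP hb
        _ ≤ _ := by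
            refine (le_lintegral_add _ _).trans (le_of_eq (lintegral_congr fun ω => ?_))
            simp only [run, hlab', Set.indicator, Set.mem_setOf_eq]
            split_ifs with h <;> simp
    · obtain ⟨s, hs, hb⟩ := ih (j + 1) (fun ω => lab ω ++ [e ω (lab ω).length])
        fun l => (happ id) (measurableSet_singleton l)
      refine ⟨(t, false) :: s, by simp [hs], ?_⟩
      have hg : goods ((t, false) :: s) = goods s + 1 := by simp [goods]
      have hc : 1 / 2 ≤ μ {ω | A ω j (lab ω) t ≤ 2 * c + 1}ᶜ := by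
        rw [prob_compl_eq_one_sub hS]
        push Not at hP
        refine ENNReal.le_sub_of_add_le_left (measure_ne_top _ _) ?_
        calc _ ≤ 1 / 2 + 1 / 2 := add_le_add hP.le le_rfl
          _ = 1 := by rw [ENNReal.add_halves]
      have hx2 : 1 / 2 + (c : ℝ≥0∞) ≤ ∫⁻ ω, (A ω j (lab ω) t : ℝ≥0∞) ∂μ := by
        calc 1 / 2 + (c : ℝ≥0∞) = ((2 * c + 1 : ℝ≥0) : ℝ≥0∞) * (1 / 2) := by
              push_cast
              rw [add_mul, one_mul, mul_assoc, mul_comm (c : ℝ≥0∞), ← mul_assoc, one_div,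
                ENNReal.mul_inv_cancel (by simp) (by simp), one_mul, add_comm]
          _ ≤ ((2 * c + 1 : ℝ≥0) : ℝ≥0∞) * μ {ω | A ω j (lab ω) t ≤ 2 * c + 1}ᶜ := by gcongr
          _ = ∫⁻ ω, Set.indicator {ω | A ω j (lab ω) t ≤ 2 * c + 1}ᶜ
                (fun _ => ((2 * c + 1 : ℝ≥0) : ℝ≥0∞)) ω ∂μ := by
              rw [lintegral_indicator_const hS.compl]
          _ ≤ _ := by
              refine lintegral_mono fun ω => ?_
              simp only [Set.indicator, Set.mem_compl_iff, Set.mem_setOf_eq]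
              split_ifs with h
              · exact zero_le
              · exact_mod_cast (not_le.1 h).le
      calc _ = (1 / 2 + (c : ℝ≥0∞)) + ((ts.length : ℝ≥0∞) / 2 + c * goods s) := by
            rw [hg, hlen]; push_cast; ring
        _ ≤ ∫⁻ ω, (A ω j (lab ω) t : ℝ≥0∞) ∂μ + ∫⁻ ω, ((run (A ω) (e ω) (2 * c + 1) s (j + 1)
              (lab ω ++ [e ω (lab ω).length])).1 : ℝ≥0∞) ∂μ := add_le_add hx2 hb
        _ ≤ _ := by
            refine (le_lintegral_add _ _).trans (le_of_eq (lintegral_congr fun ω => ?_))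
            simp [run]

theorem result {Ω : Type*} [MeasurableSpace Ω] (μ : Measure Ω) [IsProbabilityMeasure μ]
    (A : Ω → ℕ → List Bool → ℕ → ℝ≥0) (e : Ω → ℕ → Bool)
    (hA : ∀ j lab t, Measurable fun ω => A ω j lab t) (he : ∀ k, Measurable fun ω => e ω k)
    (c : ℝ≥0) :
    (∀ ts : List ℕ, ∃ s : List (ℕ × Bool), s.map Prod.fst = ts ∧
      ∫⁻ ω, ((run (A ω) (e ω) (2 * c + 1) s 0 []).2 : ℝ≥0∞) ∂μ ≤ (2 * c + 1) * ts.length ∧
      (ts.length : ℝ≥0∞) / 2 + c * goods s ≤
        ∫⁻ ω, ((run (A ω) (e ω) (2 * c + 1) s 0 []).1 : ℝ≥0∞) ∂μ) ∧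
    ∀ L : ℕ, 1 ≤ L → ∃ (s : List (ℕ × Bool)) (θ : ℝ≥0),
      (s.map Prod.fst).Pairwise (· ≤ ·) ∧ (∀ a ∈ s, 1 ≤ a.1 ∧ a.1 ≤ L) ∧
      c * (((∫⁻ ω, ((run (A ω) (e ω) θ s 0 []).2 : ℝ≥0∞) ∂μ) / L) ^ (2 / 3 : ℝ) +
          (goods s : ℝ≥0∞) / L) <
        (∫⁻ ω, ((run (A ω) (e ω) θ s 0 []).1 : ℝ≥0∞) ∂μ) / L := by
  have h1 : ∀ ts : List ℕ, ∃ s : List (ℕ × Bool), s.map Prod.fst = ts ∧
      ∫⁻ ω, ((run (A ω) (e ω) (2 * c + 1) s 0 []).2 : ℝ≥0∞) ∂μ ≤ (2 * c + 1) * ts.length ∧
      (ts.length : ℝ≥0∞) / 2 + c * goods s ≤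
        ∫⁻ ω, ((run (A ω) (e ω) (2 * c + 1) s 0 []).1 : ℝ≥0∞) ∂μ := by
    intro ts
    obtain ⟨s, hs, hb⟩ := key μ A e hA he c ts 0 (fun _ => []) (fun l => by
      by_cases h : [] = l <;> simp [h])
    refine ⟨s, hs, ?_, hb⟩
    have hlen : s.length = ts.length := by rw [← hs, List.length_map]
    calc _ ≤ ∫⁻ _, (((2 * c + 1) * s.length : ℝ≥0) : ℝ≥0∞) ∂μ :=
          lintegral_mono fun ω => ENNReal.coe_le_coe.2 (run_T _ _ _ _ _ _)
      _ = _ := by simp [hlen]
  refine ⟨h1, fun L hL => ?_⟩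
  obtain ⟨N, hN⟩ := exists_nat_gt (8 * c ^ 3 * (2 * c + 1) ^ 2)
  have hN0 : 0 < N := by
    have : (0 : ℝ≥0) < N := lt_of_le_of_lt zero_le hN
    exact_mod_cast this
  obtain ⟨s, hs, hT, hC⟩ := h1 ((List.range (N * L)).map fun j => j / N + 1)
  refine ⟨s, 2 * c + 1, ?_, ?_, ?_⟩
  · rw [hs, List.pairwise_map]
    exact List.pairwise_lt_range.imp fun h => Nat.succ_le_succ (Nat.div_le_div_right h.le)
  · intro a ha
    have : a.1 ∈ s.map Prod.fst := List.mem_map_of_mem ha
    rw [hs, List.mem_map] at this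
    obtain ⟨j, hj, h⟩ := this
    rw [List.mem_range] at hj
    rw [← h]
    exact ⟨Nat.le_add_left _ _, Nat.succ_le_of_lt (Nat.div_lt_of_lt_mul hj)⟩
  · simp only [List.length_map, List.length_range, Nat.cast_mul] at hT hC
    have hL0 : (L : ℝ≥0∞) ≠ 0 := by simp; omega
    have hLt : (L : ℝ≥0∞) ≠ ⊤ := by simp
    have hT' : (∫⁻ ω, ((run (A ω) (e ω) (2 * c + 1) s 0 []).2 : ℝ≥0∞) ∂μ) / L ≤
        (((2 * c + 1) * N : ℝ≥0) : ℝ≥0∞) := by
      rw [ENNReal.div_le_iff hL0 hLt]
      push_cast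
      rwa [mul_assoc]
    have hC' : (N : ℝ≥0∞) / 2 + c * ((goods s : ℝ≥0∞) / L) ≤
        (∫⁻ ω, ((run (A ω) (e ω) (2 * c + 1) s 0 []).1 : ℝ≥0∞) ∂μ) / L := by
      rw [ENNReal.le_div_iff_mul_le (Or.inl hL0) (Or.inl hLt), add_mul, mul_assoc,
        ENNReal.div_mul_cancel hL0 hLt, ← ENNReal.mul_div_right_comm]
      exact hC
    have hr : c * ((2 * c + 1) * N : ℝ≥0) ^ (2 / 3 : ℝ) < (N : ℝ≥0) / 2 := by
      refine lt_of_pow_lt_pow_left₀ 3 zero_le ?_
      rw [mul_pow, ← NNReal.rpow_natCast (_ ^ (2 / 3 : ℝ)), ← NNReal.rpow_mul,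
        show (2 / 3 : ℝ) * (3 : ℕ) = (2 : ℕ) by norm_num, NNReal.rpow_natCast]
      have hp : (0 : ℝ≥0) < N := by exact_mod_cast hN0
      have : (8 * c ^ 3 * (2 * c + 1) ^ 2) * ((N : ℝ≥0) ^ 2 / 8) < N * ((N : ℝ≥0) ^ 2 / 8) :=
        mul_lt_mul_of_pos_right hN (by positivity)
      calc _ = (8 * c ^ 3 * (2 * c + 1) ^ 2) * ((N : ℝ≥0) ^ 2 / 8) := by field_simp
        _ < _ := this
        _ = _ := by field_simp; norm_num
    have hr' : (c : ℝ≥0∞) * (((2 * c + 1) * N : ℝ≥0) : ℝ≥0∞) ^ (2 / 3 : ℝ) < (N : ℝ≥0∞) / 2 := by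
      rw [← ENNReal.coe_rpow_of_nonneg _ (by norm_num), ← ENNReal.coe_mul]
      have : ((N : ℝ≥0∞) / 2) = (((N : ℝ≥0) / 2 : ℝ≥0) : ℝ≥0∞) := by
        rw [ENNReal.coe_div (by norm_num)]; simp
      rw [this]
      exact_mod_cast hr
    refine lt_of_lt_of_le ?_ hC'
    rw [mul_add]
    refine ENNReal.add_lt_add_right ?_ (lt_of_le_of_lt ?_ hr')
    · exact ENNReal.mul_ne_top (by simp) (ENNReal.div_ne_top (by simp) hL0)
    · gcongr

end Pool.Agent.Results.MP_590456_lc.Disproof
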